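import Mathlib
import Pool.Agent.H32BM.Fin

set_option autoImplicit false

/-!
# MP_58ffb3_an: the weak-* asymptotics (S) does not imply the log-asymptotics (W)

Dimension `n = 1`, `K` the closed unit disc. The definitions (from `Pool.Agent.H32BM.Pot`,
`Pool.Agent.H32BM.Defs` and `Pool.Agent.R212.PshDef`):

* `Subharmonic univ u` : `u : ℂ → [-∞, ∞)` is upper semicontinuous with the sub-mean value
  inequality (plurisubharmonic functions in dimension one);
* `Lelong u` : moreover `u z ≤ log⁺ |z| + O(1)`;
* `V K z` : the supremum of `u z` over the `u` with `Lelong u` and `u ≤ 0` on `K`;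
* `reg univ (V K)` : its upper semicontinuous regularisation;
* `IsEquilibrium K μ` : `μ` is a probability measure and the distributional Laplacian of the
  regularisation of `V K` is `2 π μ`, that is, `μ = dd^c V_K^*` with the normalisation of `d^c` for
  which this is a probability measure;
* `Admissible K ν` : `ν` is a finite measure, `ν Kᶜ = 0`, and the `L²(ν)` norm of a nonzero
  polynomial is positive;
* `IsONB ν k e` : `e 0, ..., e k` is an `L²(ν)`-orthonormal basis of the polynomials of degree at
  most `k`; `bergman e = |e 0|² + ... + |e k|²`.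

The measure is `ν = ∑ c_j δ_{exp (i j)}` with weights `c_j` which decrease so fast that the Bergman
measure of order `k` is close to the counting measure of the first `k + 1` points.
-/

open MeasureTheory Metric Set Filter Topology Polynomial
open Pool.Agent.H32BM

namespace Pool.Agent.Results.MP_58ffb3_an.StrongDoesNotImplyLog

/-- There is a finite measure `ν` on the closed unit disc `K`, whose extremal function
`V_K = log⁺ |z|` is continuous, such that the `L²(ν)` norm is a norm on the polynomials and

(S) the probability measures `(k + 1)⁻¹ B_k ν` converge weak-* to the equilibrium measure of `K`;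

(W) fails: the functions `(2 k)⁻¹ log B_k` do not converge locally uniformly to `V_K`; they tend to
`+∞` at every point which is not on the unit circle. -/
theorem result :
    ∃ (K : Set ℂ) (v : ℂ → ℝ) (ν : Measure ℂ), IsCompact K ∧ Continuous v ∧
      (∀ z, V K z = ((v z : ℝ) : EReal)) ∧ Admissible K ν ∧
      (∀ k : ℕ, ∃ e : Fin (k + 1) → ℂ[X], IsONB ν k e) ∧
      ∀ e : (k : ℕ) → Fin (k + 1) → ℂ[X], (∀ k, IsONB ν k (e k)) →
        (∃ μ : Measure ℂ, IsEquilibrium K μ ∧ ∀ f : ℂ → ℝ, Continuous f →
          Tendsto (fun k : ℕ => (∫ z, f z * bergman (e k) z ∂ν) / (k + 1)) atTop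
            (𝓝 (∫ z, f z ∂μ))) ∧
        ¬ TendstoLocallyUniformly (fun (k : ℕ) (z : ℂ) => Real.log (bergman (e k) z) / (2 * k))
          v atTop ∧
        ∀ z : ℂ, ‖z‖ ≠ 1 →
          Tendsto (fun k : ℕ => Real.log (bergman (e k) z) / (2 * k)) atTop atTop := by
  refine ⟨closedBall 0 1, lp, nu, isCompact_closedBall _ _, continuous_lp,
    fun z => by rw [V_eq], admissible_nu, exists_onb, fun e he => ⟨⟨circ, isEquilibrium_circ,
    fun f hf => strong he hf⟩, fun hW => ?_, fun z hz => tendsto_log he hz⟩⟩
  have h1 : Tendsto (fun k : ℕ => Real.log (bergman (e k) 0) / (2 * k)) atTop (𝓝 (lp 0)) :=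
    (tendstoLocallyUniformlyOn_univ.2 hW).tendsto_at (mem_univ 0)
  exact not_tendsto_nhds_of_tendsto_atTop (tendsto_log he (z := 0) (by simp)) _ h1

end Pool.Agent.Results.MP_58ffb3_an.StrongDoesNotImplyLog
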